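import Pool.Agent.H320.LB.Lin
import Pool.Agent.H320.LB.Two
import Pool.Agent.H320.LB.TT
import Pool.Agent.H320.LB.WLIN
import Pool.Agent.H320.LB.WCNT
import Pool.Agent.H320.LB.WDER
import Pool.Agent.H320.LB.WHOM

/-!
# Subcomplexes of contractible 2-complexes whose fundamental group has few generators

Let `K` be a finite subcomplex of a contractible 2-complex `L` (both with one vertex), `G = π₁(K)`
and `n = b₁(K) = |V| - |R|` (the numbers of the 1-cells and 2-cells of `K`).

1. Suppose that `ℤ[G]` embeds in a division ring and `G` is generated by `n + 1` elements of
infinite order in `H₁(K; ℚ)` or, more generally, by `n + 1` subgroups `T₀, …, T_n` of the class `TT`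
(nontrivial cyclic groups, nontrivial torsion-free abelian, nilpotent or solvable groups,
Baumslag-Solitar groups, groups with an infinite normal subgroup in the class, …) with nonzero
images in `H₁(K; ℚ)`. Then `K` is aspherical.

2. Suppose that `G` is linear over a field of characteristic zero, and let `D` be the (Schur)
multiple of the orders of the finite subgroups of `GL_m` over this field. If a subgroup of finite
index `k` in `G` is generated by `e` elements and `D (e + k (1 - n) - 1) < k`, then `K` is aspherical.

For instance let `K` be the complex of a labelled oriented tree (`n = 1`): `K` is aspherical if `ℤ[G]`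
embeds in a division ring and `G` is generated by two elements, or by two Baumslag-Solitar
subgroups; or if `G` is linear and `D (e - 1) < k`, i.e. the rank gradient of `G` is less than
`1 / D`.

Proof of 1: the derivations of `G` with values in the division ring form a vector space which is
mapped injectively to `D ^ (n + 1)` (all derivations of a group in `TT` are inner); if the boundary
operator `C₂ → C₁` of the universal covering is not injective, its dimension is at least `n + 1`, and
there are derivations with arbitrary restrictions to the subgroups `T_i`, which gives `n + 1` independent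
homomorphisms to `ℚ`. Proof of 2: the von Neumann dimension of the kernel of this operator is at most
`(e - 1) / k + 1 - n` and, by the strong Atiyah conjecture for linear groups, a multiple of `1 / D`.
-/

set_option autoImplicit false

open Pool.Agent.R655.LI (Cx Sub Asph)
open Pool.Agent.H320.LB

namespace Pool.Agent.Results.MP_6de9fc_gt.FewGenerators

theorem result (K L : Cx) (_ : Sub K L) (hL : L.Contractible) [Fintype K.V] [Fintype K.R] (n : ℕ)
    (hn : Fintype.card K.V = n + Fintype.card K.R) :
    (∀ (D : Type) [DivisionRing D] (φ : MonoidAlgebra ℤ K.Pi →+* D), Function.Injective φ →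
      ∀ T : Fin (n + 1) → Subgroup K.Pi, (∀ i, TT (T i)) → (⨆ i, T i) = ⊤ →
      (∀ i, ∃ f : K.Pi →* Multiplicative ℚ, ∃ t ∈ T i, f t ≠ 1) → Asph K) ∧
    (∀ D : ℕ, LinearWith K.Pi D → ∀ P : Subgroup K.Pi, P.index ≠ 0 → ∀ (e : ℕ) (g : Fin e → P),
      Subgroup.closure (Set.range g) = ⊤ → D * (e + P.index) < P.index + D * (P.index * n + 1) →
      Asph K) := by
  rename_i i _ _
  refine ⟨fun D _ φ hφ T hT hT' hf =>
    asph_of wlin wder whom wcnt K L i hL n hn D φ hφ T hT' (fun i => (hT i).inner hφ) hf,
    fun D hD P hP e g hg hlt => asph_quant K hD.quant P hP e g hg ?_⟩
  rw [hn]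
  have h1 : D * (P.index * Fintype.card K.R + e + P.index) =
      D * (e + P.index) + D * (P.index * Fintype.card K.R) := by ring
  have h2 : P.index + D * (P.index * (n + Fintype.card K.R) + 1) =
      (P.index + D * (P.index * n + 1)) + D * (P.index * Fintype.card K.R) := by ring
  rw [h1, h2]
  exact Nat.add_lt_add_right hlt _

end Pool.Agent.Results.MP_6de9fc_gt.FewGenerators
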